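import Pool.Agent.R834.HB.Group

/-!
# Numerical and cyclotomic consequences
-/

set_option autoImplicit false

namespace Pool.Agent.R834.HB

open Filter Matrix Topology Set
open Pool.Agent.H160R3.Herm
open Pool.Agent.R834.HA

/-- lattices with Hermite invariant at least `n / (2 π e)`: no orthogonal decomposition with both
dimensions at least `n / 4` -/
theorem quarter {n : ℕ} {A F : Matrix (Fin n) (Fin n) ℝ} (hn : 0 < n) (hA : A.det ≠ 0)
    (hE : EntropyBound A (397 / 500 * Real.log 2)) (h : IsMultProj 1 A F) : 4 * minor F < n := by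
  by_contra hcon
  rw [not_lt] at hcon
  have hn' : (0 : ℝ) < n := by exact_mod_cast hn
  have h1 := entropy_minor hn one_pos hA hE h
  rw [Nat.cast_one, Real.log_one, mul_zero, add_zero] at h1
  have h2 : ((minor F : ℝ)) / n ≤ 2⁻¹ := by
    rw [div_le_iff₀ hn']
    have h3 : (2 : ℝ) * minor F ≤ n := by exact_mod_cast minor_le F
    linarith
  have h3 : (1 / 4 : ℝ) ≤ (minor F : ℝ) / n := by
    rw [le_div_iff₀ hn']
    have : (n : ℝ) ≤ 4 * minor F := by exact_mod_cast hcon
    linarith
  have h4 : Real.binEntropy (1 / 4) ≤ Real.binEntropy ((minor F : ℝ) / n) :=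
    Real.binEntropy_strictMonoOn.monotoneOn ⟨by norm_num, by norm_num⟩ ⟨by linarith, h2⟩ h3
  have h5 : Real.binEntropy (1 / 4) = 2 * Real.log 2 - 3 / 4 * Real.log 3 := by
    have e1 : (1 / 4 : ℝ)⁻¹ = 2 ^ 2 := by norm_num
    have e2 : (1 - 1 / 4 : ℝ)⁻¹ = 2 ^ 2 / 3 := by norm_num
    unfold Real.binEntropy
    rw [e1, e2, Real.log_div (by norm_num) (by norm_num), Real.log_pow]
    push_cast
    ring
  have h6 : 5 * Real.log 3 < 8 * Real.log 2 := by
    have h7 := Real.log_lt_log (by norm_num : (0 : ℝ) < 3 ^ 5) (by norm_num : (3 : ℝ) ^ 5 < 2 ^ 8)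
    rw [Real.log_pow, Real.log_pow] at h7
    push_cast at h7
    exact h7
  have h8 : 0 < Real.log 2 := Real.log_pos (by norm_num)
  linarith

/-- the product of the cyclotomic polynomials with indices in `D` -/
noncomputable def cyc (D : Finset ℕ) : Polynomial ℤ := ∏ d ∈ D, Polynomial.cyclotomic d ℤ

theorem cyc_eval (D : Finset ℕ) (hD : ∀ d ∈ D, ∀ p : ℕ, p.Prime → ∀ k : ℕ, p ^ k ≠ d) :
    (cyc D).eval 1 = 1 := by
  unfold cyc
  rw [Polynomial.eval_prod]
  exact Finset.prod_eq_one fun d hd =>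
    Polynomial.eval_one_cyclotomic_not_prime_pow fun {p} hp k => hD d hd p hp k

end Pool.Agent.R834.HB
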