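import Pool.Agent.R834.HB.Proj

/-!
# The gap theorem
-/

set_option autoImplicit false

namespace Pool.Agent.R834.HB

open Filter Matrix Topology Set
open Pool.Agent.H160R3.Herm
open Pool.Agent.R834.HA

/-- an explicit lower bound for the entropy -/
theorem entropy_ge {β : ℝ} (h0 : 0 < β) (h1 : β ≤ 1 / 2) :
    β * Real.log (2 / β) ≤ Real.binEntropy β := by
  have h2 : β * Real.log 2 ≤ (1 - β) * Real.log (1 - β)⁻¹ := by
    have hc : ∀ ⦃x : ℝ⦄, x ∈ Ici (0 : ℝ) → ∀ ⦃y : ℝ⦄, y ∈ Ici (0 : ℝ) →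
        ∀ ⦃a b : ℝ⦄, 0 ≤ a → 0 ≤ b → a + b = 1 →
        a • Real.negMulLog x + b • Real.negMulLog y ≤ Real.negMulLog (a • x + b • y) :=
      Real.strictConcaveOn_negMulLog.concaveOn.2
    have h3 := hc (x := 1) (by simp) (y := 1 / 2) (by simp) (a := 1 - 2 * β)
      (b := 2 * β) (by linarith) (by linarith) (by ring)
    have e1 : (1 - 2 * β) • (1 : ℝ) + (2 * β) • (1 / 2 : ℝ) = 1 - β := by
      simp only [smul_eq_mul]
      ring
    rw [e1, Real.negMulLog_one, smul_zero, zero_add, smul_eq_mul] at h3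
    have e2 : Real.negMulLog (1 / 2) = 1 / 2 * Real.log 2 := by
      rw [Real.negMulLog, one_div, Real.log_inv]
      ring
    have e3 : Real.negMulLog (1 - β) = (1 - β) * Real.log (1 - β)⁻¹ := by
      rw [Real.negMulLog, Real.log_inv]
      ring
    rw [e2, e3] at h3
    linarith
  have h3 : β * Real.log (2 / β) = β * Real.log β⁻¹ + β * Real.log 2 := by
    rw [Real.log_div (by norm_num) h0.ne', Real.log_inv]
    ring
  unfold Real.binEntropy
  linarith

/-- the smaller one of the two dimensions -/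
noncomputable def minor {n : ℕ} (F : Matrix (Fin n) (Fin n) ℝ) : ℕ := min F.rank (n - F.rank)

theorem minor_le {n : ℕ} (F : Matrix (Fin n) (Fin n) ℝ) : 2 * minor F ≤ n := by
  unfold minor
  omega

theorem entropy_minor {n m : ℕ} {A F : Matrix (Fin n) (Fin n) ℝ} (hn : 0 < n) (hm : 0 < m)
    (hA : A.det ≠ 0) {c : ℝ} (hE : EntropyBound A c) (h : IsMultProj m A F) :
    Real.binEntropy ((minor F : ℝ) / n) ≤ c + 2 * ((minor F : ℝ) / n) * Real.log m := by
  have hn' : (0 : ℝ) < n := by exact_mod_cast hn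
  have h1 := entropy_proj hn hm hA hE h
  have hb : F.rank ≤ n := Matrix.rank_le_width F
  unfold minor
  rcases min_cases F.rank (n - F.rank) with h9 | h9
  · rw [h9.1] at h1 ⊢
    exact h1
  · rw [h9.1] at h1 ⊢
    have e' : ((n - F.rank : ℕ) : ℝ) / n = 1 - (F.rank : ℝ) / n := by
      rw [Nat.cast_sub hb]
      field_simp
    rw [e'] at h1 ⊢
    rw [Real.binEntropy_one_sub]
    exact h1

/-- an explicit form of the entropy inequality -/
theorem explicit {n m : ℕ} {A F : Matrix (Fin n) (Fin n) ℝ} (hn : 0 < n) (hm : 0 < m)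
    (hA : A.det ≠ 0) {c : ℝ} (hE : EntropyBound A c) (h : IsMultProj m A F)
    (h0 : 0 < minor F) :
    (minor F : ℝ) * Real.log (2 * n / (m ^ 2 * minor F)) ≤ c * n := by
  have hn' : (0 : ℝ) < n := by exact_mod_cast hn
  have hm' : (0 : ℝ) < m := by exact_mod_cast hm
  have hs' : (0 : ℝ) < minor F := by exact_mod_cast h0
  have h1 := entropy_minor hn hm hA hE h
  have h2 : ((minor F : ℝ)) / n ≤ 1 / 2 := by
    rw [div_le_div_iff₀ hn' (by norm_num)]
    have := minor_le F
    have h3 : (2 : ℝ) * minor F ≤ n := by exact_mod_cast this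
    linarith
  have h3 := entropy_ge (div_pos hs' hn') h2
  have e : Real.log (2 / ((minor F : ℝ) / n)) =
      Real.log (2 * n / (m ^ 2 * minor F)) + 2 * Real.log m := by
    have e1 : 2 / ((minor F : ℝ) / n) = 2 * n / (m ^ 2 * minor F) * m ^ 2 := by
      field_simp
    rw [e1, Real.log_mul (by positivity) (by positivity), Real.log_pow]
    push_cast
    ring
  rw [e] at h3
  have h4 : ((minor F : ℝ)) / n * Real.log (2 * n / (m ^ 2 * minor F)) ≤ c := by linarith
  have e2 : ((minor F : ℝ)) / n * Real.log (2 * n / (m ^ 2 * minor F)) =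
      (minor F : ℝ) * Real.log (2 * n / (m ^ 2 * minor F)) / n := by ring
  rw [e2, div_le_iff₀ hn'] at h4
  exact h4

theorem gap {n m : ℕ} {A F : Matrix (Fin n) (Fin n) ℝ} (hn : 0 < n) (hm : 0 < m)
    (hA : A.det ≠ 0) {c δ : ℝ} (hδ : 0 < δ) (hc : c < δ * Real.log (1 + 2 * δ))
    (hE : EntropyBound A c) (h : IsMultProj m A F) :
    (minor F : ℝ) ≤ δ * n ∨ (2 / m ^ 2 - δ) * n ≤ minor F := by
  have hn' : (0 : ℝ) < n := by exact_mod_cast hn
  have hm' : (0 : ℝ) < m := by exact_mod_cast hm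
  by_contra hcon
  rw [not_or, not_le, not_le] at hcon
  obtain ⟨h1, h2⟩ := hcon
  have hs' : (0 : ℝ) < minor F := by
    have : 0 < δ * n := by positivity
    linarith
  have h0 : 0 < minor F := by exact_mod_cast hs'
  have h3 := explicit hn hm hA hE h h0
  have h4 : (2 : ℝ) * minor F ≤ n := by exact_mod_cast minor_le F
  have h5 : 1 + 2 * δ ≤ 2 * n / (m ^ 2 * minor F) := by
    rw [le_div_iff₀ (by positivity)]
    have h6 : (minor F : ℝ) * m ^ 2 < 2 * n - δ * n * m ^ 2 := by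
      have h7 := mul_lt_mul_of_pos_right h2 (show (0 : ℝ) < (m : ℝ) ^ 2 by positivity)
      have e : (2 / (m : ℝ) ^ 2 - δ) * n * m ^ 2 = 2 * n - δ * n * m ^ 2 := by
        field_simp
      rwa [e] at h7
    have h8 : 2 * δ * ((m : ℝ) ^ 2 * minor F) ≤ δ * n * m ^ 2 := by
      have h9 : 0 ≤ δ * (m : ℝ) ^ 2 * (n - 2 * minor F) := by
        have : (0 : ℝ) ≤ n - 2 * minor F := by linarith
        positivity
      linarith
    linarith
  have h6 : 0 < Real.log (1 + 2 * δ) := Real.log_pos (by linarith)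
  have h7 := Real.log_le_log (by linarith) h5
  have h8 : δ * n * Real.log (1 + 2 * δ) ≤
      (minor F : ℝ) * Real.log (2 * n / (m ^ 2 * minor F)) :=
    mul_le_mul h1.le h7 h6.le hs'.le
  nlinarith

/-- **If the limit exists.** -/
theorem gap_of_limit {L : ℝ} (hL : Tendsto ratio atTop (𝓝 L)) {δ : ℝ} (hδ : 0 < δ) :
    ∃ η : ℝ, 0 < η ∧ ∃ n0 : ℕ, 0 < n0 ∧ ∀ n ≥ n0, ∀ A : Matrix (Fin n) (Fin n) ℝ, A.det ≠ 0 →
      (1 - η) * hermite n ≤ inv A → ∀ m : ℕ, 0 < m → ∀ F, IsMultProj m A F →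
        (minor F : ℝ) ≤ δ * n ∨ (2 / m ^ 2 - δ) * n ≤ minor F := by
  have hu : limsup ratio atTop = L := hL.limsup_eq
  have hl : liminf ratio atTop = L := hL.liminf_eq
  have hL0 : 0 < L := by
    have h1 : (1 / 144 : ℝ) ≤ L := by
      refine ge_of_tendsto hL ?_
      filter_upwards [eventually_gt_atTop 0] with n hn
      exact ratio_ge hn
    linarith
  set m := δ * Real.log (1 + 2 * δ) with hm
  have hm0 : 0 < m := mul_pos hδ (Real.log_pos (by linarith))
  set η := min (1 / 2) (m / 8) with hη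
  have hη0 : 0 < η := lt_min (by norm_num) (by positivity)
  have hη1 : η ≤ 1 / 2 := min_le_left _ _
  have hη2 : η ≤ m / 8 := min_le_right _ _
  have hκ : 0 < 1 - η := by linarith
  have hlogκ : Real.log (L / ((1 - η) * L)) ≤ m / 4 := by
    have e : L / ((1 - η) * L) = (1 - η)⁻¹ := by
      field_simp
    rw [e]
    have h1 := Real.log_le_sub_one_of_pos (inv_pos.2 hκ)
    have h2 : (1 - η)⁻¹ - 1 ≤ 2 * η := by
      have : (1 - η)⁻¹ ≤ 1 + 2 * η := by
        rw [inv_le_iff_one_le_mul₀ hκ]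
        nlinarith
      linarith
    linarith
  obtain ⟨n0, hn0, h0⟩ := near_split (ε := m / 4) (by positivity) hκ
  rw [hu, hl] at h0
  refine ⟨η, hη0, n0, hn0, ?_⟩
  intro n hn A hA hAη k hk F hF
  have hEB := h0 n hn A hA hAη
  exact gap (lt_of_lt_of_le hn0 hn) hk hA hδ (by linarith) hEB hF

end Pool.Agent.R834.HB
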