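import Pool.Agent.R834.HB.Gap

/-!
# Groups of automorphisms and polynomials in an automorphism
-/

set_option autoImplicit false

namespace Pool.Agent.R834.HB

open Matrix Module
open Pool.Agent.H160R3.Herm
open Pool.Agent.R834.HA

theorem auto_transpose {n : ℕ} {Q : Matrix (Fin n) (Fin n) ℝ}
    (hQ : Q ∈ Matrix.orthogonalGroup (Fin n) ℝ) : Qᵀ * Q = 1 ∧ Q * Qᵀ = 1 :=
  ⟨(Matrix.mem_orthogonalGroup_iff' (Fin n) ℝ).1 hQ, (Matrix.mem_orthogonalGroup_iff (Fin n) ℝ).1 hQ⟩

section Group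

variable {G : Type} [Group G] [Fintype G] {n : ℕ}

/-- the action of an element of the group ring -/
noncomputable def act (ρ : G →* Matrix (Fin n) (Fin n) ℝ) (c : G → ℤ) :
    Matrix (Fin n) (Fin n) ℝ := ∑ g, (c g : ℝ) • ρ g

theorem rho_transpose (ρ : G →* Matrix (Fin n) (Fin n) ℝ) {A : Matrix (Fin n) (Fin n) ℝ}
    (hρ : ∀ g, IsAuto A (ρ g)) (g : G) : (ρ g)ᵀ = ρ g⁻¹ := by
  have h1 := (auto_transpose (hρ g).1).1
  calc (ρ g)ᵀ = (ρ g)ᵀ * (ρ g * ρ g⁻¹) := by rw [← map_mul, mul_inv_cancel, map_one, mul_one]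
    _ = ρ g⁻¹ := by rw [← mul_assoc, h1, one_mul]

/-- `c` is symmetric and `c * c = m c` in the group ring -/
def IsMultIdem (m : ℕ) (c : G → ℤ) : Prop :=
  (∀ g, c g⁻¹ = c g) ∧ ∀ g, ∑ h, c h * c (h⁻¹ * g) = m * c g

theorem act_mult (ρ : G →* Matrix (Fin n) (Fin n) ℝ) (c d : G → ℤ) :
    act ρ c * act ρ d = ∑ g, ((∑ h, c h * d (h⁻¹ * g) : ℤ) : ℝ) • ρ g := by
  have h1 : ∀ h : G, ((c h : ℝ) • ρ h) * act ρ d =
      ∑ g, ((c h * d (h⁻¹ * g) : ℤ) : ℝ) • ρ g := by
    intro h
    have e := Equiv.sum_comp (Equiv.mulLeft h) (fun g => ((c h * d (h⁻¹ * g) : ℤ) : ℝ) • ρ g)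
    unfold act
    rw [Finset.mul_sum, ← e]
    refine Finset.sum_congr rfl fun g _ => ?_
    rw [Equiv.coe_mulLeft, inv_mul_cancel_left, map_mul, smul_mul_assoc, mul_smul_comm, smul_smul]
    push_cast
    rfl
  unfold act at h1 ⊢
  rw [Finset.sum_mul, Finset.sum_congr rfl fun h _ => h1 h, Finset.sum_comm]
  refine Finset.sum_congr rfl fun g _ => ?_
  rw [← Finset.sum_smul]
  push_cast
  rfl

theorem isMultProj_act (ρ : G →* Matrix (Fin n) (Fin n) ℝ) {A : Matrix (Fin n) (Fin n) ℝ}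
    (hρ : ∀ g, IsAuto A (ρ g)) {m : ℕ} {c : G → ℤ} (hc : IsMultIdem m c) :
    IsMultProj m A (act ρ c) := by
  choose U hU using fun g => (hρ g).2
  refine ⟨⟨∑ g, c g • U g, ?_⟩, ?_, ?_⟩
  · rw [← cst_apply, map_sum]
    unfold act
    rw [Finset.sum_mul, Finset.mul_sum]
    refine Finset.sum_congr rfl fun g _ => ?_
    rw [cst_smul, smul_mul_assoc, mul_smul_comm, hU g, cst_apply]
  · unfold act
    rw [transpose_sum, ← Equiv.sum_comp (Equiv.inv G)]
    refine Finset.sum_congr rfl fun g _ => ?_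
    rw [transpose_smul, rho_transpose ρ hρ, Equiv.inv_apply, inv_inv, hc.1]
  · rw [act_mult]
    unfold act
    rw [Finset.smul_sum]
    refine Finset.sum_congr rfl fun g _ => ?_
    rw [hc.2 g, smul_smul]
    push_cast
    rfl

theorem isMultIdem_one : IsMultIdem (Fintype.card G) (fun _ : G => (1 : ℤ)) := by
  refine ⟨fun _ => rfl, fun g => ?_⟩
  simp

theorem act_one_image (ρ : G →* Matrix (Fin n) (Fin n) ℝ) (x : Fin n → ℝ) :
    (∃ y, (act ρ fun _ => 1).mulVec y = x) ↔ ∀ g, (ρ g).mulVec x = x := by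
  have e : act ρ (fun _ => 1) = ∑ g, ρ g := by
    unfold act
    simp
  rw [e]
  constructor
  · rintro ⟨y, rfl⟩ g
    rw [mulVec_mulVec, Finset.mul_sum, ← Equiv.sum_comp (Equiv.mulLeft g) (fun h => ρ h)]
    congr 1
    refine Finset.sum_congr rfl fun h _ => ?_
    rw [Equiv.coe_mulLeft, map_mul]
  · intro h
    have hc : (Fintype.card G : ℝ) ≠ 0 := by
      have : 0 < Fintype.card G := Fintype.card_pos
      exact_mod_cast this.ne'
    refine ⟨(Fintype.card G : ℝ)⁻¹ • x, ?_⟩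
    rw [mulVec_smul, Matrix.sum_mulVec, Finset.sum_congr rfl fun g _ => h g, Finset.sum_const,
      Finset.card_univ, ← Nat.cast_smul_eq_nsmul ℝ, inv_smul_smul₀ hc]

end Group

/-- a normal multiple of an idempotent is symmetric -/
theorem symm_of_normal {n : ℕ} {F : Matrix (Fin n) (Fin n) ℝ} {c : ℝ} (hc : c ≠ 0)
    (h1 : Fᵀ * F = F * Fᵀ) (h2 : F * F = c • F) : Fᵀ = F := by
  have h2t : Fᵀ * Fᵀ = c • Fᵀ := by rw [← transpose_mul, h2, transpose_smul]
  have key : (c • F - Fᵀ * F)ᵀ * (c • F - Fᵀ * F) = 0 := by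
    rw [transpose_sub, transpose_smul, transpose_mul, transpose_transpose, sub_mul, mul_sub, mul_sub,
      smul_mul_assoc, smul_mul_assoc, mul_smul_comm, mul_smul_comm]
    have e1 : Fᵀ * (Fᵀ * F) = c • (Fᵀ * F) := by rw [← mul_assoc, h2t, smul_mul_assoc]
    have e2 : Fᵀ * F * F = c • (Fᵀ * F) := by rw [mul_assoc, h2, mul_smul_comm]
    have e3 : Fᵀ * F * (Fᵀ * F) = c • c • (Fᵀ * F) := by
      rw [← mul_assoc, mul_assoc Fᵀ F Fᵀ, ← h1, ← mul_assoc, h2t, smul_mul_assoc, smul_mul_assoc,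
        e2]
    rw [e1, e2, e3]
    simp
  have h3 : c • F - Fᵀ * F = 0 := by
    have := Matrix.conjTranspose_mul_self_eq_zero (A := c • F - Fᵀ * F)
    rw [conjTranspose_eq_transpose_of_trivial] at this
    exact this.1 key
  have h4 : c • F = Fᵀ * F := sub_eq_zero.1 h3
  have h5 : c • Fᵀ = c • F := by
    rw [← transpose_smul, h4, transpose_mul, transpose_transpose]
  exact smul_right_injective _ hc h5

/-- the value of an integral polynomial at a matrix -/
noncomputable def ev {n : ℕ} (f : Polynomial ℤ) (Q : Matrix (Fin n) (Fin n) ℝ) :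
    Matrix (Fin n) (Fin n) ℝ := Polynomial.aeval Q f

theorem ev_conj {n : ℕ} (f : Polynomial ℤ) {A Q : Matrix (Fin n) (Fin n) ℝ}
    {U : Matrix (Fin n) (Fin n) ℤ} (h : Q * A = A * cst n U) :
    ev f Q * A = A * cst n (Polynomial.aeval U f) := by
  unfold ev
  induction f using Polynomial.induction_on' with
  | add p q hp hq => rw [map_add, map_add, map_add, add_mul, mul_add, hp, hq]
  | monomial k a =>
    rw [Polynomial.aeval_monomial, Polynomial.aeval_monomial, ← Algebra.smul_def,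
      ← Algebra.smul_def, smul_mul_assoc, pow_conj h, cst_smul, map_pow, mul_smul_comm,
      Int.cast_smul_eq_zsmul]

theorem ev_commute {n : ℕ} (f : Polynomial ℤ) {P Q : Matrix (Fin n) (Fin n) ℝ}
    (h : Commute P Q) : Commute P (ev f Q) := by
  unfold ev
  induction f using Polynomial.induction_on' with
  | add p q hp hq => rw [map_add]; exact hp.add_right hq
  | monomial k a =>
    rw [Polynomial.aeval_monomial, ← Algebra.smul_def]
    exact (h.pow_right k).smul_right a

theorem ev_transpose {n : ℕ} (f : Polynomial ℤ) (Q : Matrix (Fin n) (Fin n) ℝ) :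
    (ev f Q)ᵀ = ev f Qᵀ := by
  unfold ev
  induction f using Polynomial.induction_on' with
  | add p q hp hq => rw [map_add, map_add, transpose_add, hp, hq]
  | monomial k a =>
    rw [Polynomial.aeval_monomial, Polynomial.aeval_monomial, ← Algebra.smul_def,
      ← Algebra.smul_def, transpose_smul, transpose_pow]

/-- If `(Q - 1) f(Q) = 0` and `f(1) > 0` then `f(Q)` is `f(1)` times the orthogonal projection to the
space of the vectors fixed by `Q`. -/
theorem isMultProj_poly {n : ℕ} {A Q : Matrix (Fin n) (Fin n) ℝ} (hQ : IsAuto A Q)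
    (f : Polynomial ℤ) (hf : (Q - 1) * ev f Q = 0) {m : ℕ} (hm : 0 < m) (h1 : f.eval 1 = m) :
    IsMultProj m A (ev f Q) ∧
      ∀ x, (∃ y, (ev f Q).mulVec y = x) ↔ Q.mulVec x = x := by
  obtain ⟨hO, U, hU⟩ := hQ
  have hm0 : (m : ℝ) ≠ 0 := by exact_mod_cast hm.ne'
  obtain ⟨hQ1, hQ2⟩ := auto_transpose hO
  have hfix : ∀ x, Q.mulVec x = x → (ev f Q).mulVec x = (m : ℝ) • x := by
    intro x hx
    have hp : ∀ g : Polynomial ℤ, (ev g Q).mulVec x = ((g.eval 1 : ℤ) : ℝ) • x := by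
      intro g
      unfold ev
      induction g using Polynomial.induction_on' with
      | add p q hp hq => rw [map_add, add_mulVec, hp, hq, Polynomial.eval_add, Int.cast_add, add_smul]
      | monomial k a =>
        have hk : (Q ^ k).mulVec x = x := by
          induction k with
          | zero => simp
          | succ k ih => rw [pow_succ, ← mulVec_mulVec, hx, ih]
        rw [Polynomial.aeval_monomial, ← Algebra.smul_def, smul_mulVec, hk,
          Polynomial.eval_monomial, one_pow, mul_one, Int.cast_smul_eq_zsmul]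
    rw [hp, h1]
    push_cast
    rfl
  have hQF : Q * ev f Q = ev f Q := by
    rw [sub_mul, one_mul, sub_eq_zero] at hf
    exact hf
  have hFF : ev f Q * ev f Q = (m : ℝ) • ev f Q := by
    apply Matrix.toLin'.injective
    apply LinearMap.ext
    intro x
    rw [toLin'_apply, toLin'_apply, ← mulVec_mulVec, smul_mulVec]
    apply hfix
    rw [mulVec_mulVec, hQF]
  refine ⟨⟨⟨Polynomial.aeval U f, ?_⟩, ?_, hFF⟩, ?_⟩
  · rw [← cst_apply] at hU ⊢
    exact ev_conj f hU
  · apply symm_of_normal hm0 _ hFF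
    rw [ev_transpose]
    have h2 : Commute Qᵀ Q := by
      unfold Commute SemiconjBy
      rw [hQ1, hQ2]
    have h3 : Commute Qᵀ (ev f Q) := ev_commute f h2
    exact (ev_commute f h3.symm).symm.eq
  · intro x
    constructor
    · rintro ⟨y, rfl⟩
      rw [mulVec_mulVec, hQF]
    · intro hx
      refine ⟨(m : ℝ)⁻¹ • x, ?_⟩
      rw [mulVec_smul, hfix x hx, inv_smul_smul₀ hm0]

end Pool.Agent.R834.HB
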