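import Pool.Agent.R834.HA.Cor

/-!
# Endomorphisms which are multiples of orthogonal projections
-/

set_option autoImplicit false

namespace Pool.Agent.R834.HB

open Matrix Module
open Pool.Agent.H160R3.Herm
open Pool.Agent.R834.HA

/-- `F` is an endomorphism of the lattice `A ℤⁿ` and `m` times an orthogonal projection. -/
def IsMultProj {n : ℕ} (m : ℕ) (A F : Matrix (Fin n) (Fin n) ℝ) : Prop :=
  (∃ U : Matrix (Fin n) (Fin n) ℤ, F * A = A * U.map (fun z : ℤ => (z : ℝ))) ∧ Fᵀ = F ∧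
    F * F = (m : ℝ) • F

theorem cst_smul {n : ℕ} (z : ℤ) (U : Matrix (Fin n) (Fin n) ℤ) :
    cst n (z • U) = (z : ℝ) • cst n U := by
  rw [cst_apply, cst_apply]
  ext i j
  rw [Matrix.map_apply, Matrix.smul_apply, Matrix.smul_apply, Matrix.map_apply, smul_eq_mul,
    smul_eq_mul, Int.cast_mul]

theorem IsMultProj.splits {n m : ℕ} {A F : Matrix (Fin n) (Fin n) ℝ} (hm : 0 < m)
    (hA : A.det ≠ 0) (h : IsMultProj m A F) : SplitsInto A F.rank ((m : ℝ) ^ F.rank) := by
  obtain ⟨⟨U, hU⟩, hT, hFF⟩ := h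
  have hm0 : (m : ℝ) ≠ 0 := by exact_mod_cast hm.ne'
  have hker : ∀ x, F.mulVec x = 0 → Fᵀ.mulVec x = 0 := fun x hx => by rw [hT, hx]
  obtain ⟨hd, hr, -, hi⟩ := endo_ineq A F hA U hU hker
  have hAu : IsUnit A := by
    rw [isUnit_iff_isUnit_det]
    exact isUnit_iff_ne_zero.2 hA
  have hUU : U * U = (m : ℤ) • U := by
    apply cst_injective n
    rw [map_mul, cst_smul]
    apply hAu.mul_left_cancel
    rw [← cst_apply] at hU
    have e1 : A * (cst n U * cst n U) = F * F * A := by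
      rw [← mul_assoc, ← hU, mul_assoc, ← hU, mul_assoc]
    rw [e1, hFF, smul_mul_assoc, hU, mul_smul_comm]
    push_cast
    rfl
  set T := Matrix.toLin' U with hTd
  have hon : onRange T = (m : ℤ) • (1 : LinearMap.range T →ₗ[ℤ] LinearMap.range T) := by
    apply LinearMap.ext
    intro y
    apply Subtype.ext
    obtain ⟨z, hz⟩ := y.2
    rw [coe_onRange]
    have h2 : (((((m : ℤ) • (1 : LinearMap.range T →ₗ[ℤ] LinearMap.range T)) y :
        LinearMap.range T)) : Fin n → ℤ) = (m : ℤ) • y.1 := rfl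
    rw [h2, ← hz, hTd, toLin'_apply, toLin'_apply, mulVec_mulVec, hUU, smul_mulVec]
  have hdet : LinearMap.det (onRange T) = (m : ℤ) ^ F.rank := by
    rw [hon, LinearMap.det_smul, map_one, mul_one, hr]
  rw [hdet] at hi
  push_cast at hi
  rw [abs_of_pos (by positivity)] at hi
  exact hi

theorem IsMultProj.compl {n m : ℕ} {A F : Matrix (Fin n) (Fin n) ℝ} (h : IsMultProj m A F) :
    IsMultProj m A ((m : ℝ) • 1 - F) := by
  obtain ⟨⟨U, hU⟩, hT, hFF⟩ := h
  refine ⟨⟨(m : ℤ) • 1 - U, ?_⟩, ?_, ?_⟩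
  · rw [← cst_apply] at hU ⊢
    rw [map_sub, cst_smul, map_one, sub_mul, mul_sub, hU, smul_mul_assoc, mul_smul_comm, one_mul,
      mul_one]
    push_cast
    rfl
  · rw [transpose_sub, transpose_smul, transpose_one, hT]
  · rw [sub_mul, mul_sub, mul_sub, hFF, smul_mul_assoc, smul_mul_assoc, one_mul, one_mul,
      mul_smul_comm, mul_one, sub_self, sub_zero, ← smul_sub]

theorem IsMultProj.range_eq {n m : ℕ} {A F : Matrix (Fin n) (Fin n) ℝ} (hm : 0 < m)
    (h : IsMultProj m A F) : LinearMap.range (Matrix.toLin' ((m : ℝ) • 1 - F)) =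
      LinearMap.ker (Matrix.toLin' F) := by
  obtain ⟨-, hT, hFF⟩ := h
  have hm0 : (m : ℝ) ≠ 0 := by exact_mod_cast hm.ne'
  apply le_antisymm
  · rintro _ ⟨x, rfl⟩
    rw [LinearMap.mem_ker, toLin'_apply, toLin'_apply, mulVec_mulVec, mul_sub, hFF,
      mul_smul_comm, mul_one, sub_self, zero_mulVec]
  · intro x hx
    rw [LinearMap.mem_ker, toLin'_apply] at hx
    refine ⟨(m : ℝ)⁻¹ • x, ?_⟩
    rw [toLin'_apply, mulVec_smul, sub_mulVec, smul_mulVec, one_mulVec, hx, sub_zero,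
      inv_smul_smul₀ hm0]

theorem IsMultProj.rank_compl {n m : ℕ} {A F : Matrix (Fin n) (Fin n) ℝ} (hm : 0 < m)
    (h : IsMultProj m A F) : ((m : ℝ) • 1 - F).rank = n - F.rank := by
  have h5 : F.rank = finrank ℝ (LinearMap.range (Matrix.toLin' F)) := rfl
  have h6 : ((m : ℝ) • 1 - F).rank =
      finrank ℝ (LinearMap.range (Matrix.toLin' ((m : ℝ) • 1 - F))) := rfl
  have h7 := LinearMap.finrank_range_add_finrank_ker (Matrix.toLin' F)
  rw [finrank_fin_fun, ← h.range_eq hm, ← h5, ← h6] at h7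
  omega

theorem IsMultProj.splits_compl {n m : ℕ} {A F : Matrix (Fin n) (Fin n) ℝ} (hm : 0 < m)
    (hA : A.det ≠ 0) (h : IsMultProj m A F) :
    SplitsInto A (n - F.rank) ((m : ℝ) ^ (n - F.rank)) := by
  have h1 := h.compl.splits hm hA
  rwa [h.rank_compl hm] at h1

theorem IsMultProj.ineq {n m : ℕ} {A F : Matrix (Fin n) (Fin n) ℝ} (hn : 0 < n) (hm : 0 < m)
    (hA : A.det ≠ 0) (h : IsMultProj m A F) :
    inv A ^ n ≤ (m : ℝ) ^ (2 * min F.rank (n - F.rank)) *
      (hermite (n - F.rank) ^ (n - F.rank) * hermite F.rank ^ F.rank) := by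
  obtain ⟨-, hb, h1⟩ := (h.splits hm hA).ineq hn hA
  obtain ⟨-, -, h2⟩ := (h.splits_compl hm hA).ineq hn hA
  rw [Nat.sub_sub_self hb] at h2
  rcases min_cases F.rank (n - F.rank) with h9 | h9
  · rw [h9.1, mul_comm 2, pow_mul]
    exact h1
  · rw [h9.1, mul_comm 2, pow_mul]
    linarith

/-- the entropy inequality -/
theorem entropy_proj {n m : ℕ} {A F : Matrix (Fin n) (Fin n) ℝ} (hn : 0 < n) (hm : 0 < m)
    (hA : A.det ≠ 0) {c : ℝ} (hE : EntropyBound A c) (h : IsMultProj m A F) :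
    Real.binEntropy ((F.rank : ℝ) / n) ≤
      c + 2 * (((min F.rank (n - F.rank) : ℕ) : ℝ) / n) * Real.log m := by
  have hn' : (0 : ℝ) < n := by exact_mod_cast hn
  obtain ⟨-, hb, -⟩ := (h.splits hm hA).ineq hn hA
  have h1 := hE _ _ (h.splits hm hA)
  have h2 := hE _ _ (h.splits_compl hm hA)
  rw [Real.log_pow] at h1 h2
  have hcast : ((n - F.rank : ℕ) : ℝ) = n - F.rank := Nat.cast_sub hb
  have e' : ((n - F.rank : ℕ) : ℝ) / n = 1 - (F.rank : ℝ) / n := by
    rw [hcast]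
    field_simp
  rcases min_cases F.rank (n - F.rank) with h9 | h9
  · rw [h9.1]
    have e : 2 / (n : ℝ) * (F.rank * Real.log m) = 2 * ((F.rank : ℝ) / n) * Real.log m := by
      field_simp
    rw [e] at h1
    exact h1
  · rw [h9.1]
    have e : 2 / (n : ℝ) * (((n - F.rank : ℕ) : ℝ) * Real.log m) =
        2 * (((n - F.rank : ℕ) : ℝ) / n) * Real.log m := by
      field_simp
    rw [e, e', Real.binEntropy_one_sub, ← e'] at h2
    exact h2

end Pool.Agent.R834.HB
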